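import Pool.Agent.MP_7e7dde_gt.Ident

/-! It is consistent with ZFC that there is a Lindelöf `ω`-stable space of countable tightness
which is not Grothendieck: there are a model `(M, E)` of ZFC and, in this model, such a space. -/

namespace Pool.Agent.Results.MP_7e7dde_gt.NotGrothendieck

open Pool.Agent Pool.Agent.SetModel Pool.Agent.MP63050e Pool.Agent.BVM Pool.Agent.MP7e7dde

theorem result : ∃ (M : Type 1) (E : M → M → Prop), IsModelZFC E ∧
    ∃ w R L X T f : M, IsOmega E w ∧ IsReal E w R L ∧ IsTych E R L X T ∧ IsLindelof E w X T ∧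
      IsStable E w R L X T ∧ IsTight E w X T ∧ IsCont E X T X T f ∧ IsOnto E X f ∧
      ¬ IsGroth E w R L X T := by
  obtain ⟨B, _, em, h1, h2, h3, h4⟩ := exists_completion (MP7e7dde.Cond ℝ)
  have hem : DenseEmb em := ⟨h1, h2, h3, h4⟩
  obtain ⟨h, -⟩ := Ult.exists_of_ne_bot (h1 (MP7e7dde.Cond.bot ℝ))
  have hR : ∀ h : Ult B, IsReal (BVM.E h) (Mdl.mk h (omN B)) (Mdl.mk h (RN B)) (Mdl.mk h (LN B)) :=
    fun h => isReal hem sc_cond h
  exact ⟨Mdl h, BVM.E h, mod_zfc h, Mdl.mk h (omN B), Mdl.mk h (RN B), Mdl.mk h (LN B),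
    Mdl.mk h (chk (yv em)), Mdl.mk h (TN (yv em)), Mdl.mk h (idN (yv em)), isOmega h, hR h,
    isTych _ h, isLindelof hem h, isStable hem hR h, isTight hem h, isCont_idN _ h,
    isOnto_idN _ h, not_groth hem h⟩

end Pool.Agent.Results.MP_7e7dde_gt.NotGrothendieck
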